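import Pool.Agent.Lib.MP_225e67_ag.NE5
import Pool.Agent.Lib.MP_225e67_ag.FO5

/-!
# A negative conormal intersection number on a Kobayashi hyperbolic projective surface

The surface `XX` is fibred over the Fermat curve `b 0 ^ 4 + b 1 ^ 4 = 2 * b 2 ^ 4`, the fibre over
`b` being the cyclic cover `y ^ 4 = F_b (x, w)` of the projective line, where `F_b` is a sum of two
cubes of linear forms in `x ^ 4`, `w ^ 4`.  The curve `ZZ` is the fibre over `b = (1, 1, 1)`,
`y ^ 4 = (x ^ 4 + w ^ 4) ^ 3`, whose normalisation is the Fermat quartic and which has four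
unibranch triple points.
-/

open scoped LinearAlgebra.Projectivization

namespace Pool.Agent.Results.MP_225e67_ag.NegativeConormal

open Pool.Agent.Lib.MP_225e67_ag

/-- There is a Kobayashi hyperbolic complex projective manifold `X` and a closed irreducible
subvariety `Z` of `X` with `T^*_Z X · T^*_X X = -4 < 0`. -/
theorem result : ∃ (ι : Type) (_ : Fintype ι) (X Z : Set (ℙ ℂ (ι → ℂ))),
    IsProjectiveManifold X ∧ IsKobayashiHyperbolic X ∧ IsIrredSubvariety Z X ∧
      IsConormalIntersectionNumber X Z (-4) :=
  ⟨Ix, inferInstance, XX, ZZ, isProjectiveManifold_XX, isKobayashiHyperbolic_XX, isIrred_ZZ,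
    intersectionNumber⟩

end Pool.Agent.Results.MP_225e67_ag.NegativeConormal
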